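import Pool.Agent.H674.RW.Main
import Pool.Agent.H674.RW.Approx
import Pool.Agent.H674.RW.Wronskian
import Pool.Agent.H674.RW.Analytic
import Pool.Agent.H674.RW.Limit
import Pool.Agent.H674.RW.Example
import Pool.Agent.H674.RW.Bridge
import Pool.Agent.H674.RW.PairsFinite

set_option autoImplicit false

/-!
# Radical weights `ω` for which `ℓ¹(ω)` does not embed isometrically into `M(0,1)`

`M(0,1)` is the algebra of complex Borel measures on `[0,1)` with truncated convolution. A measure is represented
by the functional `φ ↦ ∫ φ dμ` on `C_0([0,1))`, the continuous functions on `[0,1]` that vanish at `1` (Riesz).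

Theorem. If `ω` is a radical weight and `ℓ¹(ω)` has an isometric isomorphism into `M(0,1)`, then the equality
`ω (m+n) = ω m ω n` holds for only finitely many pairs `m, n ≥ 1`. Hence `ω n = 2^(-⌊n/2⌋²)` (a radical weight with
`ω (n+1) = ω n ω 1` for all even `n`) admits no isometric isomorphism of `ℓ¹(ω)` into `M(0,1)`.

Proof. Let `μ` be the image of `X`, `ρ = μ^m`, `τ = μ^n` (truncated powers). The equality of norms means that no mass
of `|ρ| × |τ|` lies in `s + t ≥ 1`. As `D μ = t μ` is a derivation of `M(0,1)`, `n (Dρ) τ = m ρ (Dτ)` in `M(0,1)`, and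
since nothing is truncated this holds for the full convolution on the line; so the Laplace transforms `R`, `S` of
`ρ`, `τ` satisfy `n R' S = m R S'`, hence `S^m = c R^n`, and `c = 1` by comparison on `[0,1)`. So
`|R(x)| ≤ (ω n e^x)^(m/n)` for `x ≥ 0`; if this held for infinitely many `n` then `R = 0` since `ω n^(1/n) → 0`, a
contradiction. So for each `m` there are finitely many `n`. Let `S` be the set of `k` for which `|μ^k|` has no mass
on `[1/2, 1)`. For `k, l` in `S` no mass of `|μ^k| × |μ^l|` lies in `s + t ≥ 1`, so the same argument shows that `S`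
is finite; and in each pair with equality one of `m, n` lies in `S`.
-/

namespace Pool.Agent.Results.MP_f562c3_an.PairsFinite

open Pool.Agent.H674.RW

theorem tools : Tools :=
  ⟨fun u hu N ε hε => approx u hu N ε hε,
   fun ρ τ r q hr hq hrn hqn m n hid hex hnorm z => wronskian ρ τ r q hr hq hrn hqn m n hid hex hnorm z,
   fun F G F' G' hF hG m n h hF0 hG0 => analytic_step F G F' G' hF hG m n h hF0 hG0,
   fun ω hω S hS m a b ha h hm hb => limit_step ω hω S hS m a b ha h hm hb⟩

/-- If `ω` is a radical weight sequence for which there is an isometric isomorphism of `ℓ¹(ω)` into `M(0,1)`, then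
there are only finitely many pairs `(m, n)` with `m, n ≥ 1` and `ω (m + n) = ω m * ω n`. In particular there is no
isometric isomorphism of `ℓ¹(ω)` into `M(0,1)` for the radical weight `ω n = 2 ^ (-⌊n/2⌋²)`. -/
theorem result :
    (∀ ω : ℕ → ℝ, RadicalWeight ω → (∃ T, IsoInto ω T) →
      {p : ℕ × ℕ | 1 ≤ p.1 ∧ 1 ≤ p.2 ∧ ω (p.1 + p.2) = ω p.1 * ω p.2}.Finite) ∧
    RadicalWeight (fun n => (1 / 2 : ℝ) ^ ((n / 2) ^ 2)) ∧
    ¬ ∃ T, IsoInto (fun n => (1 / 2 : ℝ) ^ ((n / 2) ^ 2)) T := by
  refine ⟨?_, example_weight.1, ?_⟩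
  · rintro ω hω ⟨T, hT⟩
    obtain ⟨P, hP1, hP2⟩ := powers' ω T hT
    exact pairs_finite tools ω hω P hP1 hP2
  · rintro ⟨T, hT⟩
    obtain ⟨P, hP1, hP2⟩ := powers' _ T hT
    exact example_weight.2 (finite_of_tools tools _ example_weight.1 P hP1 hP2 1 le_rfl)

end Pool.Agent.Results.MP_f562c3_an.PairsFinite
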